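import Mathlib
import Pool.Agent.Helper1.SnarkDefs
import Pool.Agent.Helper1.SnarkProof

set_option autoImplicit false

namespace Pool.Agent.Results.MP_faaf88_co.SnarkCover

open Pool.Agent.Helper1.Snark

/-- **Q1 of MP_faaf88_co, answered in the affirmative.**  Every finite connected cubic graph
(loops, multiple edges and semi-edges allowed) that is not 3-edge-colourable is covered by a
finite simple 2-connected graph that is not 3-edge-colourable. -/
theorem result (V E : Type) [Finite V] [Finite E] (A : EndGraph V E) (_hconn : A.Connected)
    (hcub : A.Cubic) (hcol : ¬ A.Colorable3) :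
    ∃ (W : Type) (_ : Finite W) (H : SimpleGraph W),
      TwoConnected H ∧ ¬ H.lineGraph.Colorable 3 ∧ A.CoveredBy H :=
  main V E A _hconn hcub hcol

end Pool.Agent.Results.MP_faaf88_co.SnarkCover
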